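import Pool.Agent.Helper99.LZ.Goals

/-!
# Continuity of the perturbation, and sequences of the class HH1 have no internal zeros
-/

set_option autoImplicit false

open Finset Filter Topology

namespace Pool.Agent.Helper56.LZ

open Pool.Agent.Helper99.LZ

theorem cont : StmtCONT := by
  intro V _ _ S N
  induction N with
  | zero =>
    intro p q u v
    exact tendsto_const_nhds
  | succ N ih =>
    intro p q u v
    have h0 : Tendsto (fun ε : ℝ => ε) (𝓝[>] 0) (𝓝 0) := tendsto_nhdsWithin_of_tendsto_nhds tendsto_id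
    have h1 := ih p q u v
    have h2 := ih (p - 1) (q - 1) u v
    have h3 := ih (p - -1) (q - -1) u v
    have h4 := ih (p - -1 - 1) (q - -1 - 1) u v
    have h5 := (h1.add (h0.mul h2)).add (h0.mul (h3.add (h0.mul h4)))
    simp only [zero_mul, add_zero] at h5
    refine h5.congr fun ε => ?_
    simp only [Ctx.pert, Ctx.sh, LinearMap.add_apply, LinearMap.smul_apply, smul_eq_mul]

theorem P_mono {T : Pr} {a b : ℤ} (h : T.Reg a b) : Monotone T.P := by
  refine monotone_int_of_le_succ fun k => ?_
  have := h.L0 (k + 1)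
  unfold Pr.L at this
  rw [add_sub_cancel_right] at this
  linarith

theorem Q_mono {T : Pr} {a b : ℤ} (h : T.Reg a b) : Monotone T.Q := by
  refine monotone_int_of_le_succ fun k => ?_
  have := h.R0 (k + 1)
  unfold Pr.R at this
  rw [add_sub_cancel_right] at this
  linarith

theorem P_nonneg {T : Pr} {a b : ℤ} (h : T.Reg a b) (k : ℤ) : 0 ≤ T.P k := by
  have h1 := P_mono h (min_le_left k (a - 1))
  have h2 := (h.lo (min k (a - 1)) (by have := min_le_right k (a - 1); omega)).1
  linarith

theorem Q_le {T : Pr} {a b : ℤ} (h : T.Reg a b) (k : ℤ) : T.Q k ≤ T.P b := by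
  have h1 := Q_mono h (le_max_left k b)
  have h2 := (h.hi (max k b) (le_max_right k b)).2
  linarith

theorem L_step {T : Pr} {a b : ℤ} (h : T.HH1 a b) (k : ℤ) (hk : T.L k = 0)
    (hP : 0 < T.P (k - 1)) : T.L (k + 1) = 0 := by
  have hR := h.toReg
  have hn := h.nat (k - 1) (min (a - 1) (k - 1)) (min_le_right _ _)
  have hq := (hR.lo (min (a - 1) (k - 1)) (by have := min_le_left (a - 1) (k - 1); omega)).2
  have hm := P_mono hR (show k - 1 ≤ k + 1 by omega)
  have hm2 := P_mono hR (show k ≤ k + 1 by omega)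
  have e1 : T.W3 (k - 1) (min (a - 1) (k - 1)) (T.H (k - 1) (min (a - 1) (k - 1))) 1 0 0 1 0 0
      = T.P (k + 1) := by
    unfold Pr.W3 Pr.H
    rw [hq, show k - 1 + 2 = k + 1 by ring]
    ring
  have e2 : T.W3 (k - 1) (min (a - 1) (k - 1)) (T.H (k - 1) (min (a - 1) (k - 1))) 0 0 1 0 0 1
      = T.P (k - 1) := by
    unfold Pr.W3 Pr.H
    rw [hq]
    ring
  have e3 : T.W3 (k - 1) (min (a - 1) (k - 1)) (T.H (k - 1) (min (a - 1) (k - 1))) 1 0 0 0 0 1
      = T.P k := by
    unfold Pr.W3 Pr.H
    rw [hq, show k - 1 + 1 = k by ring]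
    ring
  have h3 := hn 1 0 0 0 0 1 (by rw [e1]; linarith)
  rw [e1, e2, e3] at h3
  have hk' : T.P k = T.P (k - 1) := by
    unfold Pr.L at hk
    linarith
  rw [hk'] at h3 hm2
  have h4 : T.P (k - 1) * (T.P (k + 1) - T.P (k - 1)) ≤ 0 := by nlinarith only [h3]
  have h5 : T.P (k + 1) - T.P (k - 1) ≤ 0 := by
    by_contra hc
    have := mul_pos hP (not_le.1 hc)
    linarith
  unfold Pr.L
  rw [add_sub_cancel_right, hk']
  linarith

theorem R_step {T : Pr} {a b : ℤ} (h : T.HH1 a b) (k : ℤ) (hk : T.R k = 0)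
    (hQ : T.Q k < T.P b) : T.R (k - 1) = 0 := by
  have hR := h.toReg
  have hn := h.nat (max b k) k (le_max_right _ _)
  have hp := (hR.hi (max b k) (le_max_left _ _)).1
  have hm := Q_mono hR (show k - 2 ≤ k by omega)
  have hm2 := Q_mono hR (show k - 2 ≤ k - 1 by omega)
  have e1 : T.W3 (max b k) k (T.H (max b k) k) 0 1 0 0 1 0 = T.P b - T.Q (k - 2) := by
    unfold Pr.W3 Pr.H
    rw [hp]
    ring
  have e2 : T.W3 (max b k) k (T.H (max b k) k) 0 0 1 0 0 1 = T.P b - T.Q k := by
    unfold Pr.W3 Pr.H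
    rw [hp]
    ring
  have e3 : T.W3 (max b k) k (T.H (max b k) k) 0 1 0 0 0 1 = T.P b - T.Q (k - 1) := by
    unfold Pr.W3 Pr.H
    rw [hp]
    ring
  have h3 := hn 0 1 0 0 0 1 (by rw [e1]; linarith)
  rw [e1, e2, e3] at h3
  have hk' : T.Q k = T.Q (k - 1) := by
    unfold Pr.R at hk
    linarith
  rw [hk'] at h3 hQ
  have h4 : (T.P b - T.Q (k - 1)) * (T.Q (k - 1) - T.Q (k - 2)) ≤ 0 := by nlinarith only [h3]
  have h5 : T.Q (k - 1) - T.Q (k - 2) ≤ 0 := by
    by_contra hc
    have := mul_pos (sub_pos.2 hQ) (not_le.1 hc)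
    linarith
  unfold Pr.R
  rw [show k - 1 - 1 = k - 2 by ring]
  linarith

theorem nogap : StmtNOGAP := by
  intro T a b h
  have hR := h.toReg
  refine ⟨fun k hk => ?_, fun k hk => ?_⟩
  · rcases (P_nonneg hR (k - 1)).eq_or_lt with h0 | h0
    · left
      intro i hi
      have h1 := P_mono hR (show i ≤ k - 1 by omega)
      have h2 := P_mono hR (show i - 1 ≤ i by omega)
      have h3 := P_nonneg hR (i - 1)
      unfold Pr.L
      linarith
    · right
      have key : ∀ n : ℕ, T.L (k + n) = 0 ∧ 0 < T.P (k + n - 1) := by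
        intro n
        induction n with
        | zero => simpa using ⟨hk, h0⟩
        | succ n ih =>
          obtain ⟨ih1, ih2⟩ := ih
          have h1 := L_step h (k + n) ih1 ih2
          have h2 := P_mono hR (show k + n - 1 ≤ k + n by omega)
          push_cast
          rw [show k + ((n : ℤ) + 1) = k + n + 1 by ring]
          refine ⟨h1, ?_⟩
          rw [add_sub_cancel_right]
          linarith
      intro i hi
      have := (key (i - k).toNat).1
      rwa [Int.toNat_of_nonneg (by omega), add_sub_cancel] at this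
  · rcases (Q_le hR k).eq_or_lt with h0 | h0
    · right
      intro i hi
      have h1 := Q_mono hR (show k ≤ i - 1 by omega)
      have h2 := Q_mono hR (show i - 1 ≤ i by omega)
      have h3 := Q_le hR i
      unfold Pr.R
      linarith
    · left
      have key : ∀ n : ℕ, T.R (k - n) = 0 ∧ T.Q (k - n) < T.P b := by
        intro n
        induction n with
        | zero => simpa using ⟨hk, h0⟩
        | succ n ih =>
          obtain ⟨ih1, ih2⟩ := ih
          have h1 := R_step h (k - n) ih1 ih2
          have h2 := Q_mono hR (show k - n - 1 ≤ k - n by omega)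
          push_cast
          rw [show k - ((n : ℤ) + 1) = k - n - 1 by ring]
          exact ⟨h1, by linarith⟩
      intro i hi
      have := (key (k - i).toNat).1
      rwa [Int.toNat_of_nonneg (by omega), sub_sub_cancel] at this

end Pool.Agent.Helper56.LZ
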